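import Pool.Agent.helper75.WB.SpecI

set_option autoImplicit false

namespace Pool.Agent.WB

open Finset

theorem IPN_ev20 (c K : ℝ) (hc : 0 < c) : ∃ N₀ : ℕ, ∀ N : ℕ, N₀ ≤ N → K ≤ (N : ℝ) ^ c := by
  have h := ((tendsto_rpow_atTop hc).comp (tendsto_natCast_atTop_atTop (R := ℝ))).eventually_ge_atTop K
  exact Filter.eventually_atTop.1 h

open scoped Classical in
theorem IPN_cnt20 (p N : ℕ) (hp : 0 < p) (c : ZMod p) :
    N / p ≤ ((Icc 1 N).filter (fun n : ℕ => (n : ZMod p) = c)).card := by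
  have : NeZero p := ⟨hp.ne'⟩
  obtain ⟨v, hv1, hv2, hv3⟩ : ∃ v : ℕ, 1 ≤ v ∧ v ≤ p ∧ (v : ZMod p) = c := by
    by_cases h0 : c.val = 0
    · refine ⟨p, hp, le_refl p, ?_⟩
      rw [ZMod.natCast_self]
      exact ((ZMod.val_eq_zero c).1 h0).symm
    · exact ⟨c.val, Nat.one_le_iff_ne_zero.2 h0, (ZMod.val_lt c).le, ZMod.natCast_zmod_val c⟩
  calc N / p = (range (N / p)).card := (card_range _).symm
    _ ≤ ((Icc 1 N).filter (fun n : ℕ => (n : ZMod p) = c)).card := by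
      refine card_le_card_of_injOn (fun k => k * p + v) ?_ ?_
      · intro k hk
        have hk' : k < N / p := by simpa using hk
        simp only [coe_filter, Set.mem_ofPred_eq, mem_Icc]
        have h1 : (k + 1) * p ≤ N := by
          calc (k + 1) * p ≤ (N / p) * p := Nat.mul_le_mul_right p hk'
            _ ≤ N := Nat.div_mul_le_self N p
        refine ⟨⟨by omega, ?_⟩, ?_⟩
        · have h2 : (k + 1) * p = k * p + p := by ring
          omega
        · push_cast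
          rw [ZMod.natCast_self, mul_zero, zero_add, hv3]
      · intro k _ l _ hkl
        have h : k * p + v = l * p + v := hkl
        have h2 : k * p = l * p := by omega
        exact Nat.eq_of_mul_eq_mul_right hp h2

open scoped Classical in
theorem IPN (hIPG : IPG_stmt) (hIPR : IPR_stmt) : IPN_stmt := by
  intro α ε δ hα hα1 hδ hδε
  obtain ⟨N1, hN1⟩ := hIPR.1 α (by linarith) (δ / 2) (by linarith)
  obtain ⟨N2, hN2⟩ := IPN_ev20 (1 - α) 4 (by linarith)
  obtain ⟨N3, hN3⟩ := IPN_ev20 (δ / 2) 4 (by linarith)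
  obtain ⟨N4, hN4⟩ := IPN_ev20 δ (4 / (δ * Real.log 2) + 4) hδ
  refine ⟨max (max N1 N2) (max N3 (max N4 2)), fun N hN a hU => ?_⟩
  have hNN1 : N1 ≤ N := by omega
  have hNN2 : N2 ≤ N := by omega
  have hNN3 : N3 ≤ N := by omega
  have hNN4 : N4 ≤ N := by omega
  have hN2' : 2 ≤ N := by omega
  have h1 := hN1 N hNN1
  have h2 := hN2 N hNN2
  have h3 := hN3 N hNN3
  have h4 := hN4 N hNN4
  have hNpos : (0 : ℝ) < (N : ℝ) := by
    have : (2 : ℝ) ≤ (N : ℝ) := by exact_mod_cast hN2'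
    linarith
  have hN1' : (1 : ℝ) < (N : ℝ) := by
    have : (2 : ℝ) ≤ (N : ℝ) := by exact_mod_cast hN2'
    linarith
  set M : ℝ := (N : ℝ) ^ α with hM
  have hMpos : 0 < M := Real.rpow_pos_of_pos hNpos α
  have hM1 : 1 ≤ M := Real.one_le_rpow hN1'.le (by linarith)
  have hMN : 4 * M ≤ (N : ℝ) := by
    have e : (N : ℝ) ^ (1 - α) * M = (N : ℝ) := by
      rw [hM, ← Real.rpow_add hNpos]
      simp
    nlinarith
  -- the covered set
  set U : Finset ℕ := (Icc 1 N).filter (fun n => 1 ≤ (thr M a n).card) with hUdef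
  have hUmem : ∀ n, n ∈ U ↔ (1 ≤ n ∧ n ≤ N) ∧ 1 ≤ (thr M a n).card := by
    intro n
    rw [hUdef, mem_filter, mem_Icc]
  have hUset : {n : ℕ | 1 ≤ n ∧ n ≤ N ∧ ∃ p : ℕ, p.Prime ∧ (N : ℝ) ^ α ≤ p ∧
      (p : ℝ) < 2 * (N : ℝ) ^ α ∧ (n : ZMod p) = a p} = (U : Set ℕ) := by
    ext n
    simp only [Set.mem_ofPred_eq, mem_coe]
    rw [hUmem]
    constructor
    · rintro ⟨h5, h6, p, hp1, hp2, hp3, hp4⟩
      refine ⟨⟨h5, h6⟩, ?_⟩
      rw [Nat.one_le_iff_ne_zero, ← Nat.pos_iff_ne_zero, card_pos]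
      exact ⟨p, mem_thr.2 ⟨mem_prs.2 ⟨hp1, hp2, hp3⟩, hp4⟩⟩
    · rintro ⟨⟨h5, h6⟩, h7⟩
      refine ⟨h5, h6, ?_⟩
      obtain ⟨p, hp⟩ := card_pos.1 (lt_of_lt_of_le Nat.zero_lt_one h7)
      rw [mem_thr, mem_prs] at hp
      exact ⟨p, hp.1.1, hp.1.2.1, hp.1.2.2, hp.2⟩
  rw [hUset, Set.ncard_coe_finset] at hU
  -- prs card bound
  have hprs : (prs M).card ≤ N := by
    have h5 := hIPR.2 M hM1
    have : ((prs M).card : ℝ) ≤ (N : ℝ) := by linarith
    exact_mod_cast this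
  have hf : ∀ n ∈ U, 1 ≤ (thr M a n).card ∧ (thr M a n).card ≤ N := by
    intro n hn
    refine ⟨((hUmem n).1 hn).2, le_trans (card_le_card ?_) hprs⟩
    unfold thr
    exact filter_subset _ _
  obtain ⟨r, hr1, hr2, hr3⟩ := hIPG U (fun n => (thr M a n).card) N hf
  -- the double count
  have hsum : ∑ n ∈ U, (thr M a n).card =
      ∑ p ∈ prs M, ((Icc 1 N).filter (fun n : ℕ => (n : ZMod p) = a p)).card := by
    have e1 : ∑ n ∈ U, (thr M a n).card = ∑ n ∈ Icc 1 N, (thr M a n).card := by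
      rw [hUdef]
      refine sum_subset (filter_subset _ _) ?_
      intro n hn hn2
      rw [mem_filter, not_and] at hn2
      have := hn2 hn
      omega
    rw [e1]
    have e2 := sum_card_bipartiteAbove_eq_sum_card_bipartiteBelow
      (s := Icc 1 N) (t := prs M) (fun (n : ℕ) (p : ℕ) => (n : ZMod p) = a p)
    exact e2
  have hbig : (N : ℝ) ^ (1 - δ) ≤ ((∑ n ∈ U, (thr M a n).card : ℕ) : ℝ) := by
    rw [hsum]
    push_cast
    have h5 : ∀ p ∈ prs M, (N : ℝ) / (4 * M) ≤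
        (((Icc 1 N).filter (fun n : ℕ => (n : ZMod p) = a p)).card : ℝ) := by
      intro p hp
      rw [mem_prs] at hp
      have hp0 : 0 < p := hp.1.pos
      have hp0' : (0 : ℝ) < (p : ℝ) := by exact_mod_cast hp0
      have h6 := IPN_cnt20 p N hp0 (a p)
      have h7 : ((N / p : ℕ) : ℝ) ≤
          (((Icc 1 N).filter (fun n : ℕ => (n : ZMod p) = a p)).card : ℝ) := by exact_mod_cast h6
      have h8 : (N : ℝ) / p - 1 < ((N / p : ℕ) : ℝ) := by
        have h9 : N < (N / p + 1) * p := by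
          have := Nat.lt_div_mul_add (a := N) hp0
          have e : (N / p + 1) * p = N / p * p + p := by ring
          omega
        have h10 : (N : ℝ) < (((N / p : ℕ) : ℝ) + 1) * p := by exact_mod_cast h9
        have h11 : (N : ℝ) / p < ((N / p : ℕ) : ℝ) + 1 := by
          rw [div_lt_iff₀ hp0']
          exact h10
        linarith
      have h12 : (2 : ℝ) ≤ (N : ℝ) / p := by
        rw [le_div_iff₀ hp0']
        linarith [hp.2.2]
      have h13 : (N : ℝ) / (4 * M) ≤ (N : ℝ) / p / 2 := by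
        rw [div_div]
        apply div_le_div_of_nonneg_left hNpos.le (by positivity)
        linarith [hp.2.2]
      linarith
    have h14 : (prs M).card * ((N : ℝ) / (4 * M)) ≤
        ∑ p ∈ prs M, (((Icc 1 N).filter (fun n : ℕ => (n : ZMod p) = a p)).card : ℝ) := by
      have := card_nsmul_le_sum (prs M)
        (fun p => (((Icc 1 N).filter (fun n : ℕ => (n : ZMod p) = a p)).card : ℝ)) _ h5
      rw [nsmul_eq_mul] at this
      exact this
    refine le_trans ?_ h14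
    have h15 : (N : ℝ) ^ (α - δ / 2) * ((N : ℝ) / (4 * M)) ≤
        (prs M).card * ((N : ℝ) / (4 * M)) := by
      apply mul_le_mul_of_nonneg_right h1
      positivity
    refine le_trans ?_ h15
    have h16 : (N : ℝ) ^ (α - δ / 2) * ((N : ℝ) / (4 * M)) = (N : ℝ) ^ (1 - δ / 2) / 4 := by
      have e : (N : ℝ) ^ (α - δ / 2) = M * (N : ℝ) ^ (- (δ / 2)) := by
        rw [hM, ← Real.rpow_add hNpos]
        ring_nf
      have e2 : (N : ℝ) ^ (1 - δ / 2) = (N : ℝ) * (N : ℝ) ^ (- (δ / 2)) := by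
        rw [sub_eq_add_neg, Real.rpow_add hNpos, Real.rpow_one]
      rw [e, e2]
      field_simp
    rw [h16]
    have e3 : (N : ℝ) ^ (1 - δ / 2) = (N : ℝ) ^ (1 - δ) * (N : ℝ) ^ (δ / 2) := by
      rw [← Real.rpow_add hNpos]
      ring_nf
    rw [e3]
    have : 0 < (N : ℝ) ^ (1 - δ) := Real.rpow_pos_of_pos hNpos _
    nlinarith
  have hr0 : (0 : ℝ) < (r : ℝ) := by exact_mod_cast hr1
  -- first bound
  have hfirst : (N : ℝ) ^ (α - 1 / 2 + ε - 3 * δ) ≤ (r : ℝ) := by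
    have h5 : ((∑ n ∈ U, (thr M a n).card : ℕ) : ℝ) ≤ 4 * r * U.card := by exact_mod_cast hr2
    have h6 : (N : ℝ) ^ (1 - δ) ≤ 4 * r * (N : ℝ) ^ (3 / 2 - α - ε) := by
      refine le_trans hbig (le_trans h5 ?_)
      apply mul_le_mul_of_nonneg_left hU.le
      positivity
    have hP : 0 < (N : ℝ) ^ (3 / 2 - α - ε) := Real.rpow_pos_of_pos hNpos _
    have e1 : (N : ℝ) ^ (1 - δ) =
        (N : ℝ) ^ (α - 1 / 2 + ε - 3 * δ) * (N : ℝ) ^ (2 * δ) * (N : ℝ) ^ (3 / 2 - α - ε) := by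
      rw [← Real.rpow_add hNpos, ← Real.rpow_add hNpos]
      ring_nf
    have h7 : (4 : ℝ) ≤ (N : ℝ) ^ (2 * δ) :=
      le_trans h3 (Real.rpow_le_rpow_of_exponent_le hN1'.le (by linarith))
    rw [e1] at h6
    have h8 : (N : ℝ) ^ (α - 1 / 2 + ε - 3 * δ) * (N : ℝ) ^ (2 * δ) ≤ 4 * r :=
      le_of_mul_le_mul_right h6 hP
    have hQ : 0 < (N : ℝ) ^ (α - 1 / 2 + ε - 3 * δ) := Real.rpow_pos_of_pos hNpos _
    nlinarith
  refine ⟨r, U.filter (fun n => r ≤ (thr M a n).card ∧ (thr M a n).card < 2 * r), ?_, hfirst, ?_, ?_⟩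
  · have h5 : (1 : ℝ) < (N : ℝ) ^ (α - 1 / 2 + ε - 3 * δ) :=
      Real.one_lt_rpow hN1' (by linarith)
    have h6 : (1 : ℝ) < (r : ℝ) := lt_of_lt_of_le h5 hfirst
    have h7 : 1 < r := by exact_mod_cast h6
    omega
  · set E := U.filter (fun n => r ≤ (thr M a n).card ∧ (thr M a n).card < 2 * r) with hE
    have h5 : ((∑ n ∈ U, (thr M a n).card : ℕ) : ℝ) ≤
        4 * ((Nat.log 2 N : ℝ) + 1) * ((E.card : ℝ) * r) := by exact_mod_cast hr3
    have hlog2 : 0 < Real.log 2 := Real.log_pos (by norm_num)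
    have h6 : (Nat.log 2 N : ℝ) ≤ Real.log N / Real.log 2 := by
      have h7 : (2 : ℝ) ^ (Nat.log 2 N) ≤ (N : ℝ) := by
        exact_mod_cast Nat.pow_log_le_self 2 (by omega)
      rw [le_div_iff₀ hlog2, ← Real.log_pow]
      exact Real.log_le_log (by positivity) h7
    have h8 : Real.log N ≤ (N : ℝ) ^ δ / δ := Real.log_le_rpow_div hNpos.le hδ
    have hNd : 1 ≤ (N : ℝ) ^ δ := Real.one_le_rpow hN1'.le hδ.le
    have h9 : 4 * ((Nat.log 2 N : ℝ) + 1) ≤ (N : ℝ) ^ (2 * δ) := by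
      have h10 : Real.log N / Real.log 2 ≤ (N : ℝ) ^ δ / (δ * Real.log 2) := by
        rw [div_le_div_iff₀ hlog2 (by positivity)]
        have : Real.log N * δ ≤ (N : ℝ) ^ δ := by
          rwa [le_div_iff₀ hδ] at h8
        nlinarith
      have h11 : 4 * ((Nat.log 2 N : ℝ) + 1) ≤ 4 * ((N : ℝ) ^ δ / (δ * Real.log 2)) + 4 * (N : ℝ) ^ δ := by
        linarith
      have e : (N : ℝ) ^ (2 * δ) = (N : ℝ) ^ δ * (N : ℝ) ^ δ := by
        rw [← Real.rpow_add hNpos]
        ring_nf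
      have h12 : 4 * ((N : ℝ) ^ δ / (δ * Real.log 2)) + 4 * (N : ℝ) ^ δ =
          (N : ℝ) ^ δ * (4 / (δ * Real.log 2) + 4) := by ring
      rw [e]
      refine le_trans h11 ?_
      rw [h12]
      exact mul_le_mul_of_nonneg_left h4 (by linarith)
    have e2 : (N : ℝ) ^ (1 - δ) = (N : ℝ) ^ (1 - 3 * δ) * (N : ℝ) ^ (2 * δ) := by
      rw [← Real.rpow_add hNpos]
      ring_nf
    have hER : 0 ≤ (E.card : ℝ) * r := by positivity
    have h13 : (N : ℝ) ^ (1 - 3 * δ) * (N : ℝ) ^ (2 * δ) ≤ ((E.card : ℝ) * r) * (N : ℝ) ^ (2 * δ) := by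
      rw [← e2]
      refine le_trans hbig (le_trans h5 ?_)
      rw [mul_comm ((E.card : ℝ) * r)]
      exact mul_le_mul_of_nonneg_right h9 hER
    exact le_of_mul_le_mul_right h13 (Real.rpow_pos_of_pos hNpos _)
  · intro n hn
    rw [mem_filter] at hn
    have := (hUmem n).1 hn.1
    exact ⟨this.1.1, this.1.2, hn.2.1, hn.2.2⟩

end Pool.Agent.WB
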