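import Pool.Agent.helper78.WB.SpecIII

set_option autoImplicit false

namespace Pool.Agent.WB

open MvPolynomial

theorem SEPF_aux (ζ : V3) (A : Finset V3)
    (hA : ∀ η ∈ A, ∃ i i' : Fin 3, ζ i * η i' ≠ ζ i' * η i) :
    ∃ f : MvPolynomial (Fin 3) ℤ, f.IsHomogeneous A.card ∧ eval ζ f ≠ 0 ∧
      ∀ η ∈ A, eval η f = 0 := by
  classical
  induction A using Finset.induction_on with
  | empty =>
    refine ⟨1, ?_, ?_, ?_⟩
    · simpa using (isHomogeneous_one (Fin 3) ℤ)
    · simp
    · intro η hη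
      exact absurd hη (Finset.notMem_empty η)
  | insert η₀ A hη₀ ih =>
    obtain ⟨f, hf1, hf2, hf3⟩ := ih fun η hη => hA η (Finset.mem_insert_of_mem hη)
    obtain ⟨i, i', h⟩ := hA η₀ (Finset.mem_insert_self η₀ A)
    have hL : (C (η₀ i') * X i - C (η₀ i) * X i' : MvPolynomial (Fin 3) ℤ).IsHomogeneous 1 := by
      apply IsHomogeneous.sub
      · simpa using (isHomogeneous_C (Fin 3) (η₀ i')).mul (isHomogeneous_X ℤ i)
      · simpa using (isHomogeneous_C (Fin 3) (η₀ i)).mul (isHomogeneous_X ℤ i')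
    refine ⟨f * (C (η₀ i') * X i - C (η₀ i) * X i'), ?_, ?_, ?_⟩
    · rw [Finset.card_insert_of_notMem hη₀]
      exact hf1.mul hL
    · rw [map_mul]
      refine mul_ne_zero hf2 ?_
      simp only [map_sub, map_mul, eval_C, eval_X]
      intro h0
      apply h
      linarith [h0, mul_comm (η₀ i') (ζ i), mul_comm (η₀ i) (ζ i')]
    · intro η hη
      rw [map_mul]
      rcases Finset.mem_insert.1 hη with rfl | hη
      · simp only [map_sub, map_mul, eval_C, eval_X]
        ring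
      · rw [hf3 η hη, zero_mul]

theorem SEPF : SEPF_stmt := by
  classical
  intro S hS ζ hζ hζ0 T hT
  obtain ⟨f, hf1, hf2, hf3⟩ := SEPF_aux ζ (S.erase ζ) fun η hη => by
    rcases Finset.mem_erase.1 hη with ⟨h1, h2⟩
    exact hS ζ hζ η h2 (Ne.symm h1)
  obtain ⟨i, hi⟩ : ∃ i, ζ i ≠ 0 := by
    by_contra hcon
    push Not at hcon
    exact hζ0 (funext hcon)
  have hc : (S.erase ζ).card ≤ T := (Finset.card_le_card (Finset.erase_subset ζ S)).trans hT
  refine ⟨f * X i ^ (T - (S.erase ζ).card), ?_, ?_, ?_⟩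
  · have h := hf1.mul ((isHomogeneous_X ℤ i).pow (T - (S.erase ζ).card))
    have e : (S.erase ζ).card + 1 * (T - (S.erase ζ).card) = T := by omega
    rw [e] at h
    exact h
  · rw [map_mul, map_pow, eval_X]
    exact mul_ne_zero hf2 (pow_ne_zero _ hi)
  · intro η hη hne
    rw [map_mul, hf3 η (Finset.mem_erase.2 ⟨hne, hη⟩), zero_mul]

end Pool.Agent.WB
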